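import Pool.Agent.H98.SD.Targets

/-!
# DXD. Decoding is definable (MP_e37c09_lc)
-/

open Ordinal Cardinal Order Set
open scoped ZFSet

universe u

namespace Pool.Agent.H63.SD2

open _root_.HD HD.SD

/-- DXD. -/
theorem pf_DXD : T_DXD.{u} := by
  intro t ht
  have h1 : DX fun (_ : ZFSet.{u}) (w : ℕ → Ordinal.{u}) => w 2 = t (w 0) (w 1) := DX.o ht.dz
  have h2 : DX fun (_ : ZFSet.{u}) (w : ℕ → Ordinal.{u}) => w 0 = t (w 2) (w 1) :=
    h1.ren fun n => if n = 0 then 2 else if n = 1 then 1 else 0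
  have h3 := DX.ex (S := fun b x w => b = t (w 1) (w 0) ∧ b.toZFSet ∈ x) (h2.and (DX.mem 0))
  refine h3.congr fun x w => ?_
  constructor
  · intro h
    exact ⟨_, rfl, h⟩
  · rintro ⟨b, rfl, h⟩
    exact h

end Pool.Agent.H63.SD2
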