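import Pool.Agent.H98.SD.TargetsM
import Pool.Agent.H63.SD2.UNF

/-!
# UFM. The least codes for positivity at any cofinality (MP_e37c09_lc)
-/

open Ordinal Cardinal Order Set
open scoped ZFSet

universe u

namespace Pool.Agent.H63.SD2

open _root_.HD HD.SD
open HD.NF (w0)

/-- the code `c` is a witness for `m` -/
def WtM (en : Ordinal.{u} → ZFSet.{u}) (μ κ : Ordinal.{u}) (x : ZFSet.{u}) (m c : Ordinal.{u}) :
    Prop :=
  (∀ i < m, Pos μ κ (Sc2 en x c i)) ∧
    ∀ b i i', b ∈ Sc2 en x c i → b ∈ Sc2 en x c i' → i = i'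

theorem dx_wtM {en : Ordinal.{u} → ZFSet.{u}} (hen : EN en) (h1 : T_DXS.{u}) (h2 : T_DXP.{u})
    (μ κ : Ordinal.{u}) : DX fun x w => WtM en μ κ x (w 1) (w 0) := by
  have hs := (h1 en hen).2
  refine DX.and ?_ ?_
  · refine DX.allLt (S := fun i x w => Pos μ κ (Sc2 en x (w 0) i)) 1 ?_
    have h3 : DX fun x w => w 0 ∈ Sc2 en x (w 2) (w 1) :=
      hs.ren fun n => if n = 0 then 0 else if n = 1 then 2 else 1
    exact dx_pos h2 h3 μ κ
  · refine DX.all (S := fun b x w => ∀ i i', b ∈ Sc2 en x (w 0) i → b ∈ Sc2 en x (w 0) i' →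
      i = i') ?_
    refine DX.all (S := fun i x w => ∀ i', w 0 ∈ Sc2 en x (w 1) i → w 0 ∈ Sc2 en x (w 1) i' →
      i = i') ?_
    refine DX.all (S := fun i' x w => w 1 ∈ Sc2 en x (w 2) (w 0) → w 1 ∈ Sc2 en x (w 2) i' →
      w 0 = i') ?_
    refine DX.imp (hs.ren fun n => if n = 0 then 2 else if n = 1 then 3 else 1)
      (DX.imp (hs.ren fun n => if n = 0 then 2 else if n = 1 then 3 else 0) (DX.o (DO.eq 1 0)))

/-- UFM. -/
theorem pf_UFM (h1 : T_DXS.{u}) (h2 : T_DXP.{u}) : T_UFM.{u} := by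
  intro en hen μ L x hx
  set κ := (succ L).ord with hκ
  refine ⟨fun x w => ∃ c, (WtM en μ κ x (w 2) c ∧ ∀ c' < c, ¬ WtM en μ κ x (w 2) c') ∧
    w 0 ∈ Sc2 en x c (w 1), ?_, ?_⟩
  · refine DX.ex (S := fun c x w => (WtM en μ κ x (w 2) c ∧ ∀ c' < c, ¬ WtM en μ κ x (w 2) c') ∧
      w 0 ∈ Sc2 en x c (w 1)) ?_
    have hw := dx_wtM hen h1 h2 μ κ
    have hs := (h1 en hen).2
    refine DX.and (DX.and (hw.ren fun n => if n = 0 then 0 else 3) ?_)
      (hs.ren fun n => if n = 0 then 1 else if n = 1 then 0 else 2)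
    refine DX.allLt (S := fun c' x w => ¬ WtM en μ κ x (w 3) c') 0 ?_
    exact DX.not (hw.ren fun n => if n = 0 then 0 else 4)
  · intro m hm
    have hex : ∃ c, WtM en μ κ x m c := hx m hm
    obtain ⟨c, hc, hmin⟩ := WellFounded.has_min (wellFounded_lt (α := Ordinal.{u}))
      {c | WtM en μ κ x m c} hex
    have hun : ∀ c', (WtM en μ κ x m c' ∧ ∀ c'' < c', ¬ WtM en μ κ x m c'') → c' = c := by
      rintro c' ⟨h3, h4⟩
      rcases lt_trichotomy c' c with h | h | h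
      · exact absurd h (hmin c' h3)
      · exact h
      · exact absurd hc (h4 c h)
    have hfam : ∀ i b, b ∈ fam (fun x w => ∃ c, (WtM en μ κ x (w 2) c ∧
        ∀ c' < c, ¬ WtM en μ κ x (w 2) c') ∧ w 0 ∈ Sc2 en x c (w 1)) x (fun _ => m) i ↔
        b ∈ Sc2 en x c i := by
      intro i b
      constructor
      · rintro ⟨c', h3, h4⟩
        have := hun c' h3
        rw [this] at h4
        exact h4
      · intro h
        exact ⟨c, ⟨hc, fun c' hc' h5 => hmin c' h5 hc'⟩, h⟩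
    refine ⟨fun i hi => ?_, fun b i i' h h' => ?_⟩
    · intro C hC
      obtain ⟨b, hb, hbC, hbX, hbf⟩ := hc.1 i hi C hC
      exact ⟨b, hb, hbC, (hfam i b).2 hbX, hbf⟩
    · exact hc.2 b i i' ((hfam i b).1 h) ((hfam i' b).1 h')

end Pool.Agent.H63.SD2
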